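import Mathlib.Analysis.SpecialFunctions.Gaussian.FourierTransform
import Mathlib.Analysis.SumIntegralComparisons

/-!
# Gaussian mean values of exponential sums

`trig S a l t = ∑ i ∈ S, a i * exp (- i t l i)`.
* `integral_trig`: the Gaussian mean square is an explicit double sum;
* `mean_value`: the mean value theorem, frequencies `log n`, `n` in `[N, K N]`;
* `integral_bump`: the mean square of a Gaussian average.
-/

set_option autoImplicit false

open Complex Finset MeasureTheory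

namespace Pool.Agent.MRG

/-- The exponential sum. -/
noncomputable def trig {ι : Type*} (S : Finset ι) (a : ι → ℂ) (l : ι → ℝ) (t : ℝ) : ℂ :=
  ∑ i ∈ S, a i * cexp (-(t * l i : ℝ) * I)

section

variable {ι : Type*} (S : Finset ι) (a : ι → ℂ) (l : ι → ℝ)

theorem continuous_trig : Continuous (trig S a l) := by
  unfold trig
  fun_prop

theorem norm_trig_le (t : ℝ) : ‖trig S a l t‖ ≤ ∑ i ∈ S, ‖a i‖ := by
  refine (norm_sum_le _ _).trans (sum_le_sum fun i _ => ?_)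
  rw [norm_mul]
  have h : ‖cexp (-(t * l i : ℝ) * I)‖ = 1 := by
    rw [← ofReal_neg]
    exact norm_exp_ofReal_mul_I _
  rw [h, mul_one]

/-- The Gaussian integral. -/
theorem integral_gauss {s : ℝ} (hs : 0 < s) (θ : ℝ) :
    ∫ t : ℝ, cexp (-(t * θ : ℝ) * I) * cexp (-(s ^ 2 * t ^ 2 : ℝ)) =
      (Real.sqrt Real.pi / s * Real.exp (-θ ^ 2 / (4 * s ^ 2)) : ℝ) := by
  have hb : (0 : ℝ) < ((s ^ 2 : ℝ) : ℂ).re := by
    rw [ofReal_re]
    positivity
  have h := fourierIntegral_gaussian hb (-θ : ℂ)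
  have e1 : (fun t : ℝ => cexp (-(t * θ : ℝ) * I) * cexp (-(s ^ 2 * t ^ 2 : ℝ))) =
      fun t : ℝ => cexp (I * (-θ : ℂ) * t) * cexp (-((s ^ 2 : ℝ) : ℂ) * t ^ 2) := by
    funext t
    congr 2
    · push_cast
      ring
    · push_cast
      ring
  rw [e1, h]
  have e2 : ((Real.pi : ℂ) / ((s ^ 2 : ℝ) : ℂ)) ^ (1 / 2 : ℂ) = ((Real.sqrt Real.pi / s : ℝ) : ℂ) := by
    rw [← ofReal_div, show (1 / 2 : ℂ) = ((1 / 2 : ℝ) : ℂ) by push_cast; rfl,
      ← ofReal_cpow (by positivity), ← Real.sqrt_eq_rpow, Real.sqrt_div' _ (by positivity),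
      Real.sqrt_sq hs.le]
  rw [e2, ofReal_mul]
  congr 1
  rw [ofReal_exp]
  congr 1
  push_cast
  ring

theorem integrable_gauss {s : ℝ} (hs : 0 < s) (θ : ℝ) :
    Integrable fun t : ℝ => cexp (-(t * θ : ℝ) * I) * cexp (-(s ^ 2 * t ^ 2 : ℝ)) := by
  have hb : (0 : ℝ) < ((s ^ 2 : ℝ) : ℂ).re := by
    rw [ofReal_re]
    positivity
  have h := integrable_cexp_quadratic hb (-θ * I) 0
  refine h.congr (Filter.Eventually.of_forall fun t => ?_)
  simp only
  rw [← Complex.exp_add]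
  congr 1
  push_cast
  ring

theorem norm_sq_trig (t : ℝ) : ((‖trig S a l t‖ ^ 2 : ℝ) : ℂ) =
    ∑ i ∈ S, ∑ j ∈ S, a i * (starRingEnd ℂ) (a j) * cexp (-(t * (l i - l j) : ℝ) * I) := by
  rw [ofReal_pow, ← Complex.mul_conj', trig, map_sum, sum_mul_sum]
  refine sum_congr rfl fun i _ => sum_congr rfl fun j _ => ?_
  have e : cexp (-(t * (l i - l j) : ℝ) * I) =
      cexp (-(t * l i : ℝ) * I) * (starRingEnd ℂ) (cexp (-(t * l j : ℝ) * I)) := by
    rw [← Complex.exp_conj, ← Complex.exp_add]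
    congr 1
    simp only [map_mul, map_neg, conj_ofReal, conj_I]
    push_cast
    ring
  rw [e, map_mul]
  ring

/-- **The Gaussian mean square** is an explicit double sum. -/
theorem integral_trig {s : ℝ} (hs : 0 < s) :
    ((∫ t : ℝ, ‖trig S a l t‖ ^ 2 * Real.exp (-(s ^ 2 * t ^ 2)) : ℝ) : ℂ) =
      ∑ i ∈ S, ∑ j ∈ S, a i * (starRingEnd ℂ) (a j) *
        (Real.sqrt Real.pi / s * Real.exp (-(l i - l j) ^ 2 / (4 * s ^ 2)) : ℝ) := by
  rw [← integral_complex_ofReal]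
  have e1 : (fun t : ℝ => ((‖trig S a l t‖ ^ 2 * Real.exp (-(s ^ 2 * t ^ 2)) : ℝ) : ℂ)) =
      fun t : ℝ => ∑ i ∈ S, ∑ j ∈ S, a i * (starRingEnd ℂ) (a j) *
        (cexp (-(t * (l i - l j) : ℝ) * I) * cexp (-(s ^ 2 * t ^ 2 : ℝ))) := by
    funext t
    rw [ofReal_mul, norm_sq_trig, sum_mul, ofReal_exp]
    refine sum_congr rfl fun i _ => ?_
    rw [sum_mul]
    refine sum_congr rfl fun j _ => ?_
    push_cast
    ring
  have h1 : ∀ i ∈ S, ∀ j ∈ S, Integrable fun t : ℝ => a i * (starRingEnd ℂ) (a j) *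
      (cexp (-(t * (l i - l j) : ℝ) * I) * cexp (-(s ^ 2 * t ^ 2 : ℝ))) := fun i _ j _ =>
    (integrable_gauss hs _).const_mul _
  rw [e1, integral_finset_sum _ fun i hi => integrable_finset_sum _ fun j hj => h1 i hi j hj]
  refine sum_congr rfl fun i hi => ?_
  rw [integral_finset_sum _ fun j hj => h1 i hi j hj]
  refine sum_congr rfl fun j _ => ?_
  rw [integral_const_mul, integral_gauss hs]

/-- Schur's bound. -/
theorem schur_bound {g : ι → ι → ℝ} (hg : ∀ i j, 0 ≤ g i j) (hs : ∀ i j, g i j = g j i) {B : ℝ}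
    (hB : ∀ i ∈ S, ∑ j ∈ S, g i j ≤ B) {x : ι → ℝ} :
    ∑ i ∈ S, ∑ j ∈ S, x i * x j * g i j ≤ B * ∑ i ∈ S, x i ^ 2 := by
  have h1 : ∑ i ∈ S, ∑ j ∈ S, x i * x j * g i j ≤
      ∑ i ∈ S, ∑ j ∈ S, ((x i ^ 2 * g i j) / 2 + (x j ^ 2 * g i j) / 2) := by
    refine sum_le_sum fun i _ => sum_le_sum fun j _ => ?_
    nlinarith [hg i j, mul_nonneg (sq_nonneg (x i - x j)) (hg i j)]
  refine h1.trans ?_
  simp only [sum_add_distrib]
  have h2 : ∑ i ∈ S, ∑ j ∈ S, (x j ^ 2 * g i j) / 2 = ∑ i ∈ S, ∑ j ∈ S, (x i ^ 2 * g i j) / 2 := by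
    rw [sum_comm]
    exact sum_congr rfl fun i _ => sum_congr rfl fun j _ => by rw [hs j i]
  rw [h2, ← sum_add_distrib, mul_sum]
  refine sum_le_sum fun i hi => ?_
  rw [← sum_add_distrib]
  have h3 : ∑ j ∈ S, (x i ^ 2 * g i j / 2 + x i ^ 2 * g i j / 2) = x i ^ 2 * ∑ j ∈ S, g i j := by
    rw [mul_sum]
    exact sum_congr rfl fun j _ => by ring
  rw [h3, mul_comm]
  exact mul_le_mul_of_nonneg_right (hB i hi) (sq_nonneg _)

/-- **The mean value theorem**, abstract. -/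
theorem mean_value' {s : ℝ} (hs : 0 < s) {B : ℝ}
    (hB : ∀ i ∈ S, ∑ j ∈ S, Real.exp (-(l i - l j) ^ 2 / (4 * s ^ 2)) ≤ B) :
    ∫ t : ℝ, ‖trig S a l t‖ ^ 2 * Real.exp (-(s ^ 2 * t ^ 2)) ≤
      Real.sqrt Real.pi / s * B * ∑ i ∈ S, ‖a i‖ ^ 2 := by
  set J := ∫ t : ℝ, ‖trig S a l t‖ ^ 2 * Real.exp (-(s ^ 2 * t ^ 2)) with hJ
  have h1 := integral_trig S a l hs
  rw [← hJ] at h1
  have h2 : J ≤ ∑ i ∈ S, ∑ j ∈ S, ‖a i‖ * ‖a j‖ *
      (Real.sqrt Real.pi / s * Real.exp (-(l i - l j) ^ 2 / (4 * s ^ 2))) := by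
    have h3 : J ≤ ‖(J : ℂ)‖ := by
      rw [norm_real]
      exact le_abs_self J
    refine h3.trans ?_
    rw [h1]
    refine (norm_sum_le _ _).trans (sum_le_sum fun i _ => (norm_sum_le _ _).trans
      (sum_le_sum fun j _ => le_of_eq ?_))
    rw [norm_mul, norm_mul, RCLike.norm_conj, norm_real, Real.norm_eq_abs, abs_of_nonneg]
    positivity
  refine h2.trans ?_
  have hc : 0 ≤ Real.sqrt Real.pi / s := by positivity
  have h4 := schur_bound S (g := fun i j => Real.sqrt Real.pi / s *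
      Real.exp (-(l i - l j) ^ 2 / (4 * s ^ 2))) (B := Real.sqrt Real.pi / s * B)
    (fun i j => by positivity) (fun i j => by
      have e : (l i - l j) ^ 2 = (l j - l i) ^ 2 := by ring
      simp only [neg_div, e]) (fun i hi => by
      rw [← mul_sum]
      exact mul_le_mul_of_nonneg_left (hB i hi) hc) (x := fun i => ‖a i‖)
  exact h4

end

/-! ### The kernel sum for `log n` -/

theorem sum_exp_sq_le {c : ℝ} (hc : 0 < c) (M : ℕ) :
    ∑ i ∈ range M, Real.exp (-c * ((i + 1 : ℕ) : ℝ) ^ 2) ≤ Real.sqrt (Real.pi / c) / 2 := by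
  have hanti : AntitoneOn (fun x : ℝ => Real.exp (-c * x ^ 2)) (Set.Icc (0 : ℝ) (0 + (M : ℕ))) := by
    intro x hx y hy hxy
    apply Real.exp_le_exp.2
    have h1 : x ^ 2 ≤ y ^ 2 := pow_le_pow_left₀ hx.1 hxy 2
    nlinarith
  have h := hanti.sum_le_integral
  simp only [zero_add] at h
  refine h.trans ?_
  have h2 : ∫ x in (0 : ℝ)..(M : ℝ), Real.exp (-c * x ^ 2) ≤
      ∫ x in Set.Ioi (0 : ℝ), Real.exp (-c * x ^ 2) := by
    rw [intervalIntegral.integral_of_le (Nat.cast_nonneg M)]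
    exact setIntegral_mono_set (integrable_exp_neg_mul_sq hc).integrableOn
      (Filter.Eventually.of_forall fun x => (Real.exp_pos _).le)
      (Filter.Eventually.of_forall fun x hx => hx.1)
  refine h2.trans (le_of_eq ?_)
  rw [integral_gaussian_Ioi]

/-- The kernel sum. -/
theorem kernel_sum {N K s : ℝ} (hN : 0 < N) (hK : 0 < K) (hs : 0 < s) (S : Finset ℕ)
    (hS : ∀ n ∈ S, N ≤ n ∧ (n : ℝ) ≤ K * N) (n : ℕ) (hn : n ∈ S) :
    ∑ m ∈ S, Real.exp (-(Real.log n - Real.log m) ^ 2 / (4 * s ^ 2)) ≤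
      1 + 2 * Real.sqrt Real.pi * s * (K * N) := by
  classical
  set c : ℝ := 1 / (4 * s ^ 2 * (K * N) ^ 2) with hc
  have hKN : 0 < K * N := mul_pos hK hN
  have hc0 : 0 < c := by positivity
  have key : ∀ m ∈ S, Real.exp (-(Real.log n - Real.log m) ^ 2 / (4 * s ^ 2)) ≤
      Real.exp (-c * ((n : ℝ) - m) ^ 2) := by
    intro m hm
    apply Real.exp_le_exp.2
    have hn0 : (0 : ℝ) < n := hN.trans_le (hS n hn).1
    have hm0 : (0 : ℝ) < m := hN.trans_le (hS m hm).1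
    have h1 : |(n : ℝ) - m| / (K * N) ≤ |Real.log n - Real.log m| := by
      rcases le_total (m : ℝ) n with h | h
      · have h2 := Real.one_sub_inv_le_log_of_pos (div_pos hn0 hm0)
        rw [Real.log_div hn0.ne' hm0.ne', inv_div] at h2
        have h3 : 0 ≤ (n : ℝ) - m := by linarith
        have h4 : 0 ≤ Real.log n - Real.log m := by
          have := Real.log_le_log hm0 h
          linarith
        rw [abs_of_nonneg h3, abs_of_nonneg h4]
        refine le_trans ?_ h2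
        have e : 1 - (m : ℝ) / n = (n - m) / n := by field_simp
        rw [e]
        exact div_le_div_of_nonneg_left h3 hn0 (hS n hn).2
      · have h2 := Real.one_sub_inv_le_log_of_pos (div_pos hm0 hn0)
        rw [Real.log_div hm0.ne' hn0.ne', inv_div] at h2
        have h3 : (n : ℝ) - m ≤ 0 := by linarith
        have h4 : Real.log n - Real.log m ≤ 0 := by
          have := Real.log_le_log hn0 h
          linarith
        rw [abs_of_nonpos h3, abs_of_nonpos h4]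
        refine le_trans ?_ (h2.trans (le_of_eq (by ring)))
        have e : 1 - (n : ℝ) / m = (m - n) / m := by field_simp
        rw [e, neg_sub]
        exact div_le_div_of_nonneg_left (by linarith) hm0 (hS m hm).2
    have h2 : ((n : ℝ) - m) ^ 2 / (K * N) ^ 2 ≤ (Real.log n - Real.log m) ^ 2 := by
      have h3 := pow_le_pow_left₀ (by positivity) h1 2
      rwa [div_pow, sq_abs, sq_abs] at h3
    have e : -c * ((n : ℝ) - m) ^ 2 = -(((n : ℝ) - m) ^ 2 / (K * N) ^ 2) / (4 * s ^ 2) := by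
      rw [hc]
      field_simp
    rw [e]
    apply div_le_div_of_nonneg_right _ (by positivity)
    linarith
  refine (sum_le_sum key).trans ?_
  -- compare with all integers
  obtain ⟨M, hM⟩ : ∃ M : ℕ, ∀ m ∈ S, m < M := ⟨S.sup id + 1, fun m hm =>
    Nat.lt_succ_of_le (le_sup (f := id) hm)⟩
  have hnM : n < M := hM n hn
  have h5 : ∑ m ∈ S, Real.exp (-c * ((n : ℝ) - m) ^ 2) ≤
      ∑ m ∈ range M, Real.exp (-c * ((n : ℝ) - m) ^ 2) :=
    sum_le_sum_of_subset_of_nonneg (fun m hm => mem_range.2 (hM m hm))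
      fun _ _ _ => (Real.exp_pos _).le
  have h6 : ∑ m ∈ range M, Real.exp (-c * ((n : ℝ) - m) ^ 2) =
      ∑ m ∈ range n, Real.exp (-c * ((n : ℝ) - m) ^ 2) + 1 +
        ∑ i ∈ range (M - n - 1), Real.exp (-c * ((i + 1 : ℕ) : ℝ) ^ 2) := by
    obtain ⟨q, rfl⟩ : ∃ q, M = n + 1 + q := ⟨M - n - 1, by omega⟩
    rw [sum_range_add, sum_range_succ]
    have e1 : n + 1 + q - n - 1 = q := by omega
    rw [e1]
    congr 1
    · congr 1
      rw [sub_self]
      simp
    · refine sum_congr rfl fun i _ => ?_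
      congr 1
      push_cast
      ring
  have h7 : ∑ m ∈ range n, Real.exp (-c * ((n : ℝ) - m) ^ 2) =
      ∑ i ∈ range n, Real.exp (-c * ((i + 1 : ℕ) : ℝ) ^ 2) := by
    rw [← sum_range_reflect]
    refine sum_congr rfl fun i hi => ?_
    have hi' := mem_range.1 hi
    congr 2
    have e : ((n - 1 - i : ℕ) : ℝ) = n - 1 - i := by
      rw [Nat.sub_sub, Nat.cast_sub (by omega)]
      push_cast
      ring
    rw [e]
    push_cast
    ring
  have h8 : Real.sqrt (Real.pi / c) / 2 = Real.sqrt Real.pi * s * (K * N) := by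
    rw [hc]
    have e : Real.pi / (1 / (4 * s ^ 2 * (K * N) ^ 2)) = Real.pi * (2 * s * (K * N)) ^ 2 := by
      field_simp
      ring
    rw [e, Real.sqrt_mul Real.pi_pos.le, Real.sqrt_sq (by positivity)]
    ring
  have h9 := sum_exp_sq_le hc0 n
  have h10 := sum_exp_sq_le hc0 (M - n - 1)
  rw [h8] at h9 h10
  rw [h6, h7] at h5
  linarith

/-- **The mean value theorem** for Dirichlet polynomials, Gaussian weight. -/
theorem mean_value {N K s : ℝ} (hN : 0 < N) (hK : 0 < K) (hs : 0 < s) (S : Finset ℕ)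
    (hS : ∀ n ∈ S, N ≤ n ∧ (n : ℝ) ≤ K * N) (a : ℕ → ℂ) :
    ∫ t : ℝ, ‖trig S a (fun n => Real.log n) t‖ ^ 2 * Real.exp (-(s ^ 2 * t ^ 2)) ≤
      Real.sqrt Real.pi * (1 / s + 2 * Real.sqrt Real.pi * (K * N)) * ∑ n ∈ S, ‖a n‖ ^ 2 := by
  have h := mean_value' S a (fun n => Real.log n) hs (kernel_sum hN hK hs S hS)
  refine h.trans (le_of_eq ?_)
  field_simp

end Pool.Agent.MRG
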