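import Pool.Agent.Lib.MP_bf4c7f_mr.Gauss

/-!
# Gaussian averages and exponential sums

`bump S a l δ y = ∑ i ∈ S, a i * exp (- (y - l i) ^ 2 / (2 δ ^ 2))`; `integral_bump`: its mean square
is `δ ^ 2` times the Gaussian mean square of `trig S a l`.
-/

set_option autoImplicit false

open Complex Finset MeasureTheory

namespace Pool.Agent.MRG

variable {ι : Type*} (S : Finset ι) (a : ι → ℂ) (l : ι → ℝ)

/-- The Gaussian average. -/
noncomputable def bump (S : Finset ι) (a : ι → ℂ) (l : ι → ℝ) (δ y : ℝ) : ℂ :=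
  ∑ i ∈ S, a i * (Real.exp (-(y - l i) ^ 2 / (2 * δ ^ 2)) : ℝ)

theorem continuous_bump (δ : ℝ) : Continuous (bump S a l δ) := by
  unfold bump
  refine continuous_finset_sum _ fun i _ => continuous_const.mul ?_
  exact continuous_ofReal.comp (Real.continuous_exp.comp (by fun_prop))

theorem integrable_shift {δ : ℝ} (hδ : 0 < δ) (m c : ℝ) :
    Integrable fun y : ℝ => c * Real.exp (-(1 / δ ^ 2) * (y - m) ^ 2) :=
  (((integrable_exp_neg_mul_sq (b := 1 / δ ^ 2) (by positivity)).comp_sub_right m)).const_mul c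

theorem integral_shift {δ : ℝ} (hδ : 0 < δ) (m c : ℝ) :
    ∫ y : ℝ, c * Real.exp (-(1 / δ ^ 2) * (y - m) ^ 2) = c * (Real.sqrt Real.pi * δ) := by
  rw [integral_const_mul,
    integral_sub_right_eq_self (fun y : ℝ => Real.exp (-(1 / δ ^ 2) * y ^ 2)) m, integral_gaussian]
  congr 1
  have e : Real.pi / (1 / δ ^ 2) = Real.pi * δ ^ 2 := by field_simp
  rw [e, Real.sqrt_mul Real.pi_pos.le, Real.sqrt_sq hδ.le]

/-- The mean square of the Gaussian average. -/
theorem integral_bump' {δ : ℝ} (hδ : 0 < δ) :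
    ((∫ y : ℝ, ‖bump S a l δ y‖ ^ 2 : ℝ) : ℂ) =
      ∑ i ∈ S, ∑ j ∈ S, a i * (starRingEnd ℂ) (a j) *
        (Real.sqrt Real.pi * δ * Real.exp (-(l i - l j) ^ 2 / (4 * δ ^ 2)) : ℝ) := by
  rw [← integral_complex_ofReal]
  have e1 : (fun y : ℝ => ((‖bump S a l δ y‖ ^ 2 : ℝ) : ℂ)) =
      fun y : ℝ => ∑ i ∈ S, ∑ j ∈ S, a i * (starRingEnd ℂ) (a j) *
        ((Real.exp (-(l i - l j) ^ 2 / (4 * δ ^ 2)) *
          Real.exp (-(1 / δ ^ 2) * (y - (l i + l j) / 2) ^ 2) : ℝ) : ℂ) := by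
    funext y
    rw [ofReal_pow, ← Complex.mul_conj', bump, map_sum, sum_mul_sum]
    refine sum_congr rfl fun i _ => sum_congr rfl fun j _ => ?_
    have e : Real.exp (-(l i - l j) ^ 2 / (4 * δ ^ 2)) *
          Real.exp (-(1 / δ ^ 2) * (y - (l i + l j) / 2) ^ 2) =
        Real.exp (-(y - l i) ^ 2 / (2 * δ ^ 2)) * Real.exp (-(y - l j) ^ 2 / (2 * δ ^ 2)) := by
      rw [← Real.exp_add, ← Real.exp_add]
      congr 1
      field_simp
      ring
    rw [e, map_mul, conj_ofReal]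
    push_cast
    ring
  have h1 : ∀ i ∈ S, ∀ j ∈ S, Integrable fun y : ℝ => a i * (starRingEnd ℂ) (a j) *
      ((Real.exp (-(l i - l j) ^ 2 / (4 * δ ^ 2)) *
        Real.exp (-(1 / δ ^ 2) * (y - (l i + l j) / 2) ^ 2) : ℝ) : ℂ) := fun i _ j _ =>
    ((integrable_shift hδ _ _).ofReal).const_mul _
  rw [e1, integral_finset_sum _ fun i hi => integrable_finset_sum _ fun j hj => h1 i hi j hj]
  refine sum_congr rfl fun i hi => ?_
  rw [integral_finset_sum _ fun j hj => h1 i hi j hj]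
  refine sum_congr rfl fun j _ => ?_
  rw [integral_const_mul, integral_complex_ofReal, integral_shift hδ]
  congr 2
  ring

/-- **Gaussian averages and exponential sums.** -/
theorem integral_bump {δ : ℝ} (hδ : 0 < δ) :
    ∫ y : ℝ, ‖bump S a l δ y‖ ^ 2 =
      δ ^ 2 * ∫ t : ℝ, ‖trig S a l t‖ ^ 2 * Real.exp (-(δ ^ 2 * t ^ 2)) := by
  have h1 := integral_bump' S a l hδ
  have h2 := integral_trig S a l hδ
  apply ofReal_injective
  rw [h1, ofReal_mul, h2, mul_sum]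
  refine sum_congr rfl fun i _ => ?_
  rw [mul_sum]
  refine sum_congr rfl fun j _ => ?_
  have hδ' : (δ : ℂ) ≠ 0 := ofReal_ne_zero.2 hδ.ne'
  push_cast
  field_simp

end Pool.Agent.MRG
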