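import Pool.Agent.Lib.MP_bf4c7f_lp.KL
import Pool.Agent.Lib.MP_bf4c7f_lp.Trap
import Pool.Agent.Lib.MP_bf4c7f_lp.Four

/-!
# Equidistribution of `(n mod q1, ⌊t/n⌋ mod q2, fract (t/n))`, `n ~ R √t` (upper bound)

`equi_up`: a finite set of natural numbers `n` in `(R1 √t, R2 √t]`, all in one residue class
modulo `q1`, with `⌊t/n⌋` in one residue class modulo `q2` and `fract (t/n)` in `[al, be]`, has at
most `((R2 - R1) (be - al) / (q1 q2) + eps) √t` elements, `t ≥ T0`.
-/

set_option autoImplicit false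

namespace Pool.Agent.MREq

open Finset Filter Topology
open Pool.Agent.Lib.MP_bf4c7f_lp

theorem eq_norm_ex (x : ℝ) : ‖ex x‖ = 1 := by
  unfold ex
  exact Complex.norm_exp_ofReal_mul_I _

theorem eq_triv (g : ℕ → ℝ) (s t : ℕ) : ‖∑ l ∈ Ioc s t, ex (g l)‖ ≤ ((t - s : ℕ) : ℝ) := by
  refine (norm_sum_le _ _).trans ?_
  simp [eq_norm_ex]

theorem eq_cut (δ : ℕ → ℝ) (c : ℝ) (s t : ℕ) (hst : s < t)
    (hanti : ∀ l, s < l → l + 1 < t → δ (l + 1) ≤ δ l) :
    ∃ u, s ≤ u ∧ u < t ∧ (∀ l, s < l → l ≤ u → l < t ∧ c < δ l) ∧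
      (∀ l, u < l → l < t → δ l ≤ c) := by
  classical
  have hex : ∃ u, s ≤ u ∧ (t ≤ u + 1 ∨ δ (u + 1) ≤ c) := ⟨t - 1, by omega, Or.inl (by omega)⟩
  have h1 := Nat.find_spec hex
  have h2 : Nat.find hex ≤ t - 1 := Nat.find_min' hex ⟨by omega, Or.inl (by omega)⟩
  refine ⟨Nat.find hex, h1.1, by omega, ?_, ?_⟩
  · intro l hl hlu
    have h3 : ¬ (s ≤ l - 1 ∧ (t ≤ l - 1 + 1 ∨ δ (l - 1 + 1) ≤ c)) :=
      Nat.find_min hex (m := l - 1) (by omega)
    have h4 : l - 1 + 1 = l := by omega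
    rw [h4] at h3
    push Not at h3
    have h5 := h3 (by omega)
    exact ⟨h5.1, h5.2⟩
  · intro l hl
    induction l, hl using Nat.le_induction with
    | base =>
      intro hlt
      rcases h1.2 with h | h
      · omega
      · exact h
    | succ k hk ih =>
      intro hlt
      have h3 := ih (by omega)
      have h4 : Nat.find hex + 1 ≤ k := hk
      exact (hanti k (by omega) hlt).trans h3

theorem eq_dec (δ : ℕ → ℝ) (lam : ℝ) (s t : ℕ)
    (hanti : ∀ l, s < l → l + 1 < t → δ (l + 1) + lam ≤ δ l) (a : ℕ) (ha : s < a) :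
    ∀ n : ℕ, a + n < t → δ (a + n) + n * lam ≤ δ a := by
  intro n
  induction n with
  | zero => intro _; simp
  | succ n ih =>
    intro h
    have h1 := ih (by omega)
    have h2 := hanti (a + n) (by omega) (by omega)
    have h3 : a + (n + 1) = a + n + 1 := by omega
    rw [h3]
    push_cast
    linarith

theorem eq_gen (g : ℕ → ℝ) (lam θ : ℝ) (hlam : 0 < lam) (hθ0 : 0 < θ) (hθ1 : θ ≤ 1 / 2) :
    ∀ K s t : ℕ,
      (∀ l, s < l → l + 1 < t → (g (l + 1) - g (l + 2)) + lam ≤ g l - g (l + 1)) →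
      (∀ l, s < l → l < t → θ ≤ g l - g (l + 1)) →
      (∀ l, s < l → l < t → g l - g (l + 1) ≤ (K : ℝ) + 1 - θ) →
      ‖∑ l ∈ Ioc s t, ex (g l)‖ ≤ ((K : ℝ) + 1) * (2 / (Real.pi * θ)) + K * (2 * θ / lam + 1) := by
  intro K
  induction K with
  | zero =>
    intro s t h1 h2 h3
    have := kusmin_landau g s t 0 θ hθ0 hθ1 (fun l hl hl' => by linarith [h1 l hl hl'])
      (fun l hl hl' => by simpa using h2 l hl hl') (fun l hl hl' => by
        have := h3 l hl hl'
        push_cast at this ⊢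
        linarith)
    simpa using this
  | succ K ih =>
    intro s t h1 h2 h3
    have ha0 : 0 ≤ 2 / (Real.pi * θ) := by positivity
    have hb0 : 0 ≤ 2 * θ / lam + 1 := by positivity
    rcases Nat.lt_or_ge s t with hst | hst
    swap
    · rw [Ioc_eq_empty (by omega)]
      simp only [sum_empty, norm_zero]
      positivity
    set δ : ℕ → ℝ := fun l => g l - g (l + 1) with hδ
    have hanti : ∀ l, s < l → l + 1 < t → δ (l + 1) + lam ≤ δ l := fun l hl hl' => h1 l hl hl'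
    obtain ⟨u, hsu, hut, hu1, hu2⟩ := eq_cut δ ((K : ℝ) + 1 + θ) s t hst
      (fun l hl hl' => by linarith [hanti l hl hl'])
    obtain ⟨v, huv, hvt, hv1, hv2⟩ := eq_cut δ ((K : ℝ) + 1 - θ) u t hut
      (fun l hl hl' => by linarith [hanti l (by omega) hl'])
    have hsplit : ∑ l ∈ Ioc s t, ex (g l)
        = ∑ l ∈ Ioc s u, ex (g l) + ∑ l ∈ Ioc u v, ex (g l) + ∑ l ∈ Ioc v t, ex (g l) := by
      rw [sum_Ioc_consecutive _ hsu huv, sum_Ioc_consecutive _ (hsu.trans huv) hvt.le]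
    -- first part
    have p1 : ‖∑ l ∈ Ioc s u, ex (g l)‖ ≤ 2 / (Real.pi * θ) := by
      refine kusmin_landau g s u ((K : ℤ) + 1) θ hθ0 hθ1 ?_ ?_ ?_
      · intro l hl hl'
        linarith [h1 l hl (by omega)]
      · intro l hl hl'
        have := (hu1 l hl (by omega)).2
        push_cast
        simp only [hδ] at this
        linarith
      · intro l hl hl'
        have := h3 l hl (by omega)
        push_cast at this ⊢
        linarith
    -- second part
    have p2 : ‖∑ l ∈ Ioc u v, ex (g l)‖ ≤ 2 * θ / lam + 1 := by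
      refine (eq_triv g u v).trans ?_
      rcases Nat.lt_or_ge u v with huv' | huv'
      · have q1 := eq_dec δ lam s t hanti (u + 1) (by omega) (v - (u + 1)) (by omega)
        have e1 : u + 1 + (v - (u + 1)) = v := by omega
        rw [e1] at q1
        have q2 := hu2 (u + 1) (by omega) (by omega)
        have q3 := (hv1 v huv' le_rfl).2
        have q4 : ((v - u : ℕ) : ℝ) = ((v - (u + 1) : ℕ) : ℝ) + 1 := by
          have : v - u = v - (u + 1) + 1 := by omega
          rw [this]; push_cast; ring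
        rw [q4]
        have q5 : ((v - (u + 1) : ℕ) : ℝ) * lam ≤ 2 * θ := by linarith
        have q6 : ((v - (u + 1) : ℕ) : ℝ) ≤ 2 * θ / lam := by
          rw [le_div_iff₀ hlam]; exact q5
        linarith
      · have : v - u = 0 := by omega
        rw [this]
        simpa using hb0
    -- third part
    have p3 := ih v t (fun l hl hl' => h1 l (by omega) hl') (fun l hl hl' => h2 l (by omega) hl')
      (fun l hl hl' => by
        have := hv2 l hl hl'
        simpa [hδ] using this)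
    rw [hsplit]
    refine (norm_add_le _ _).trans ?_
    refine (add_le_add (norm_add_le _ _) le_rfl).trans ?_
    push_cast
    nlinarith [p1, p2, p3]

/-- the index set: `l` with `R1 √t < a + q l ≤ R2 √t` -/
noncomputable def idx (R1 R2 : ℝ) (q a : ℕ) (t : ℝ) : Finset ℕ :=
  Ioc ⌊(R1 * √t - a) / q⌋₊ ⌊(R2 * √t - a) / q⌋₊

theorem mem_idx {R1 R2 : ℝ} {q a : ℕ} (hq : 0 < q) {t : ℝ} {l : ℕ} (hl : l ∈ idx R1 R2 q a t) :
    R1 * √t < (a : ℝ) + q * l ∧ (a : ℝ) + q * l ≤ R2 * √t := by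
  have hq' : (0 : ℝ) < q := by exact_mod_cast hq
  rw [idx, mem_Ioc] at hl
  obtain ⟨h1, h2⟩ := hl
  have h3 : (R1 * √t - a) / q < l := Nat.lt_of_floor_lt h1
  have h4 : (l : ℝ) ≤ (R2 * √t - a) / q := (Nat.le_floor_iff' (by omega)).1 h2
  rw [div_lt_iff₀ hq'] at h3
  rw [le_div_iff₀ hq'] at h4
  constructor <;> linarith

theorem mem_idx_of {R1 R2 : ℝ} {q a : ℕ} (hq : 0 < q) {t : ℝ} {l : ℕ} (hR : 0 ≤ R1 * √t)
    (haq : a < q) (h1 : R1 * √t < (a : ℝ) + q * l) (hl : (a : ℝ) ≤ R1 * √t)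
    (h2 : (a : ℝ) + q * l ≤ R2 * √t) : l ∈ idx R1 R2 q a t := by
  have hq' : (0 : ℝ) < q := by exact_mod_cast hq
  rw [idx, mem_Ioc]
  constructor
  · rw [Nat.floor_lt (by apply div_nonneg _ hq'.le; linarith), div_lt_iff₀ hq']
    linarith
  · apply Nat.le_floor
    rw [le_div_iff₀ hq']
    linarith

theorem card_idx (R1 R2 : ℝ) (q a : ℕ) (hq : 0 < q) (hR : R1 ≤ R2) (t : ℝ) :
    ((idx R1 R2 q a t).card : ℝ) ≤ (R2 - R1) * √t / q + 1 := by
  have hq' : (0 : ℝ) < q := by exact_mod_cast hq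
  have h0 : 0 ≤ (R2 - R1) * √t / q := by
    have : 0 ≤ R2 - R1 := by linarith
    positivity
  rw [idx, Nat.card_Ioc]
  rcases Nat.lt_or_ge ⌊(R1 * √t - a) / q⌋₊ ⌊(R2 * √t - a) / q⌋₊ with h | h
  · rw [Nat.cast_sub h.le]
    have h1 := Nat.lt_floor_add_one ((R1 * √t - a) / q)
    have h2 : ((⌊(R2 * √t - a) / q⌋₊ : ℕ) : ℝ) ≤ (R2 * √t - a) / q :=
      (Nat.le_floor_iff' (by omega)).1 le_rfl
    have h3 : (R2 - R1) * √t / q = (R2 * √t - a) / q - (R1 * √t - a) / q := by
      field_simp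
      ring
    rw [h3]
    linarith
  · rw [Nat.sub_eq_zero_of_le h]
    simpa using by linarith

/-- the exponential sum over the hyperbola -/
theorem expsum (R1 R2 : ℝ) (hR1 : 0 < R1) (hR : R1 ≤ R2) (q1 q2 a : ℕ) (h1 : 0 < q1) (h2 : 0 < q2)
    (h : ℕ) (hh : 0 < h) (eps : ℝ) (he : 0 < eps) :
    ∃ T0 : ℝ, ∀ t : ℝ, T0 ≤ t →
      ‖∑ l ∈ idx R1 R2 q1 a t, ex (h * (t / (q2 * (a + q1 * l))))‖ ≤ eps * √t := by
  have hR2 : 0 < R2 := by linarith
  have hq1 : (0 : ℝ) < q1 := by exact_mod_cast h1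
  have hq2 : (0 : ℝ) < q2 := by exact_mod_cast h2
  have hh' : (0 : ℝ) < h := by exact_mod_cast hh
  set θ0 : ℝ := h * q1 / (q2 * R2 ^ 2) with hθ0
  set G : ℝ := h * q1 / (q2 * R1 ^ 2) with hG
  have hθ0p : 0 < θ0 := by positivity
  have hGp : 0 < G := by positivity
  set K : ℕ := ⌈G⌉₊ with hK
  have hKG : G ≤ K := Nat.le_ceil G
  have hKp : (0 : ℝ) < K := by linarith
  set B : ℝ := q2 * R2 ^ 3 / (h * q1 ^ 2) with hB
  have hBp : 0 < B := by positivity
  set θ : ℝ := min (min (1 / 2) θ0) (eps / (4 * (K * B))) with hθ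
  have hθp : 0 < θ := by
    rw [hθ]
    have : 0 < eps / (4 * (K * B)) := by positivity
    exact lt_min (lt_min (by norm_num) hθ0p) this
  have hθa : θ ≤ 1 / 2 := (min_le_left _ _).trans (min_le_left _ _)
  have hθb : θ ≤ θ0 := (min_le_left _ _).trans (min_le_right _ _)
  have hθc : θ ≤ eps / (4 * (K * B)) := min_le_right _ _
  set A : ℝ := ((K : ℝ) + 1) * (2 / (Real.pi * θ)) + K with hA
  have hAp : 0 ≤ A := by
    have := Real.pi_pos
    positivity
  refine ⟨max 1 ((2 * A / eps) ^ 2), fun t ht => ?_⟩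
  have ht1 : 1 ≤ t := (le_max_left _ _).trans ht
  have ht0 : 0 < t := by linarith
  have hsq : 0 < √t := Real.sqrt_pos.2 ht0
  have hss : √t * √t = t := Real.mul_self_sqrt ht0.le
  have hAt : 2 * A / eps ≤ √t := by
    apply Real.le_sqrt_of_sq_le
    exact (le_max_right _ _).trans ht
  set lam : ℝ := 2 / (B * √t) with hlam
  have hlamp : 0 < lam := by positivity
  have hn : ∀ l ∈ idx R1 R2 q1 a t, R1 * √t < (a : ℝ) + q1 * l ∧ (a : ℝ) + q1 * l ≤ R2 * √t :=
    fun l hl => mem_idx h1 hl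
  have hnpos : 0 < R1 * √t := by positivity
  set g : ℕ → ℝ := fun l => h * (t / (q2 * (a + q1 * l))) with hg
  -- first differences
  have hd : ∀ l : ℕ, 0 < (a : ℝ) + q1 * l →
      g l - g (l + 1) = h * q1 * t / (q2 * ((a + q1 * l) * (a + q1 * l + q1))) := by
    intro l hl
    simp only [hg]
    push_cast
    have e1 : (a : ℝ) + q1 * (l + 1) = a + q1 * l + q1 := by ring
    rw [e1]
    generalize (a : ℝ) + q1 * l = x at *
    have : x + q1 ≠ 0 := by positivity
    field_simp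
    ring
  have hd2 : ∀ l : ℕ, 0 < (a : ℝ) + q1 * l →
      g (l + 1) - g (l + 2) =
        h * q1 * t / (q2 * ((a + q1 * l + q1) * (a + q1 * l + q1 + q1))) := by
    intro l hl
    have := hd (l + 1) (by push_cast; nlinarith)
    rw [show l + 2 = l + 1 + 1 from rfl, this]
    push_cast
    have e1 : (a : ℝ) + q1 * (l + 1) = a + q1 * l + q1 := by ring
    rw [e1]
  have hlow : ∀ l : ℕ, R1 * √t < (a : ℝ) + q1 * l → (a : ℝ) + q1 * l + q1 ≤ R2 * √t →
      θ0 ≤ g l - g (l + 1) := by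
    intro l hl hl'
    rw [hd l (by linarith), hθ0]
    generalize (a : ℝ) + q1 * l = x at *
    have hx : 0 < x := by linarith
    rw [div_le_div_iff₀ (by positivity) (by positivity)]
    have e : x * (x + q1) ≤ (R2 * √t) * (R2 * √t) :=
      mul_le_mul (by linarith) hl' (by linarith) (by positivity)
    have e2 : (R2 * √t) * (R2 * √t) = R2 ^ 2 * t := by
      rw [← hss]; ring_nf
      rw [Real.sq_sqrt (by positivity)]
    have e3 : x * (x + q1) ≤ R2 ^ 2 * t := by rw [← e2]; exact e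
    calc (h : ℝ) * q1 * (q2 * (x * (x + q1))) = (h * q1 * q2) * (x * (x + q1)) := by ring
      _ ≤ (h * q1 * q2) * (R2 ^ 2 * t) := by gcongr
      _ = h * q1 * t * (q2 * R2 ^ 2) := by ring
  have hup : ∀ l : ℕ, R1 * √t < (a : ℝ) + q1 * l → g l - g (l + 1) ≤ G := by
    intro l hl
    rw [hd l (by linarith), hG]
    generalize (a : ℝ) + q1 * l = x at *
    have hx : 0 < x := by linarith
    rw [div_le_div_iff₀ (by positivity) (by positivity)]
    have e : (R1 * √t) * (R1 * √t) ≤ x * (x + q1) :=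
      mul_le_mul (by linarith) (by linarith) (by linarith) (by positivity)
    have e2 : (R1 * √t) * (R1 * √t) = R1 ^ 2 * t := by
      rw [← hss]; ring_nf
      rw [Real.sq_sqrt (by positivity)]
    have e3 : R1 ^ 2 * t ≤ x * (x + q1) := by rw [← e2]; exact e
    calc (h : ℝ) * q1 * t * (q2 * R1 ^ 2) = (h * q1 * q2) * (R1 ^ 2 * t) := by ring
      _ ≤ (h * q1 * q2) * (x * (x + q1)) := by gcongr
      _ = h * q1 * (q2 * (x * (x + q1))) := by ring
  have hdec : ∀ l : ℕ, R1 * √t < (a : ℝ) + q1 * l → (a : ℝ) + q1 * l + q1 + q1 ≤ R2 * √t →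
      g (l + 1) - g (l + 2) + lam ≤ g l - g (l + 1) := by
    intro l hl hl'
    rw [hd l (by linarith), hd2 l (by linarith)]
    generalize (a : ℝ) + q1 * l = x at *
    have hx : 0 < x := by linarith
    have e1 : (h : ℝ) * q1 * t / (q2 * (x * (x + q1))) -
        h * q1 * t / (q2 * ((x + q1) * (x + q1 + q1))) =
        2 * (h * q1 ^ 2 * t) / (q2 * (x * (x + q1) * (x + q1 + q1))) := by
      have : x + q1 ≠ 0 := by positivity
      have : x + q1 + q1 ≠ 0 := by positivity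
      field_simp
      ring
    have e2 : lam ≤ 2 * (h * q1 ^ 2 * t) / (q2 * (x * (x + q1) * (x + q1 + q1))) := by
      rw [hlam, hB, div_le_div_iff₀ (by positivity) (by positivity)]
      have e3 : x * (x + q1) * (x + q1 + q1) ≤ (R2 * √t) * (R2 * √t) * (R2 * √t) := by
        apply mul_le_mul _ hl' (by positivity) (by positivity)
        exact mul_le_mul (by linarith) (by linarith) (by positivity) (by positivity)
      have e4 : (R2 * √t) * (R2 * √t) * (R2 * √t) = R2 ^ 3 * t * √t := by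
        have : t = √t * √t := hss.symm
        calc (R2 * √t) * (R2 * √t) * (R2 * √t) = R2 ^ 3 * (√t * √t) * √t := by ring
          _ = R2 ^ 3 * t * √t := by rw [hss]
      have e5 : 2 * (q2 * (x * (x + q1) * (x + q1 + q1))) ≤ 2 * (q2 * (R2 ^ 3 * t * √t)) := by
        rw [← e4]
        gcongr
      refine e5.trans (le_of_eq ?_)
      field_simp
    linarith
  have key := eq_gen g lam θ hlamp hθp hθa K ⌊(R1 * √t - a) / q1⌋₊ ⌊(R2 * √t - a) / q1⌋₊ ?_ ?_ ?_
  · have hS : ∑ l ∈ idx R1 R2 q1 a t, ex (h * (t / (q2 * (a + q1 * l)))) =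
        ∑ l ∈ Ioc ⌊(R1 * √t - a) / q1⌋₊ ⌊(R2 * √t - a) / q1⌋₊, ex (g l) := rfl
    rw [hS]
    refine key.trans ?_
    have e1 : (K : ℝ) * (2 * θ / lam + 1) = K * B * θ * √t + K := by
      rw [hlam]
      field_simp
    rw [e1]
    have e2 : K * B * θ * √t ≤ eps / 4 * √t := by
      apply mul_le_mul_of_nonneg_right _ hsq.le
      calc K * B * θ ≤ K * B * (eps / (4 * (K * B))) := by gcongr
        _ = eps / 4 := by field_simp
    have e3 : A ≤ eps / 2 * √t := by
      rw [div_le_iff₀ he] at hAt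
      linarith
    rw [hA] at e3
    have e4 : 0 ≤ eps * √t := by positivity
    linarith
  · intro l hl hl'
    have m1 := hn l (by rw [idx, mem_Ioc]; omega)
    have m2 := hn (l + 2) (by rw [idx, mem_Ioc]; omega)
    push_cast at m2
    exact hdec l m1.1 (by linarith [m2.2])
  · intro l hl hl'
    have m1 := hn l (by rw [idx, mem_Ioc]; omega)
    have m2 := hn (l + 1) (by rw [idx, mem_Ioc]; omega)
    push_cast at m2
    exact hθb.trans (hlow l m1.1 (by linarith [m2.2]))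
  · intro l hl hl'
    have m1 := hn l (by rw [idx, mem_Ioc]; omega)
    have := hup l m1.1
    linarith

theorem ex_re (x : ℝ) : (ex x).re = Real.cos (2 * Real.pi * x) := by
  unfold ex
  rw [Complex.exp_ofReal_mul_I_re]

theorem ex_add' (a b : ℝ) : ex (a + b) = ex a * ex b := by
  unfold ex
  rw [← Complex.exp_add]
  congr 1
  push_cast
  ring

theorem sum_bet_le (S : Finset ℕ) (x : ℕ → ℝ) (c : ℝ) :
    |∑ l ∈ S, bet (x l + c)| ≤
      ∑' h : ℕ, ‖∑ l ∈ S, ex (h * x l)‖ / (Real.pi ^ 2 * (h : ℝ) ^ 2) := by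
  have hs : Summable (fun h : ℕ => (S.card : ℝ) * (1 / ((h : ℝ) ^ 2))) :=
    (Real.summable_one_div_nat_pow.2 (by norm_num)).mul_left _
  have hpi : 1 ≤ Real.pi ^ 2 := by nlinarith [Real.pi_gt_three]
  have hb : ∀ h : ℕ, ‖∑ l ∈ S, ex (h * x l)‖ / (Real.pi ^ 2 * (h : ℝ) ^ 2) ≤
      (S.card : ℝ) * (1 / ((h : ℝ) ^ 2)) := by
    intro h
    rcases Nat.eq_zero_or_pos h with rfl | hh
    · simp
    have hh' : (0 : ℝ) < h := by exact_mod_cast hh
    rw [mul_one_div]
    apply div_le_div₀ (by positivity)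
    · refine (norm_sum_le _ _).trans ?_
      simp [eq_norm_ex]
    · positivity
    · nlinarith [sq_nonneg (h : ℝ)]
  have hs2 : Summable (fun h : ℕ =>
      ‖∑ l ∈ S, ex (h * x l)‖ / (Real.pi ^ 2 * (h : ℝ) ^ 2)) :=
    Summable.of_nonneg_of_le (fun h => by positivity) hb hs
  have h1 : HasSum (fun h : ℕ => ∑ l ∈ S,
      Real.cos (2 * Real.pi * h * (x l + c)) / (Real.pi ^ 2 * (h : ℝ) ^ 2))
      (∑ l ∈ S, bet (x l + c)) := hasSum_sum fun l _ => hasSum_bet (x l + c)
  have h2 : ∀ h : ℕ, |∑ l ∈ S,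
      Real.cos (2 * Real.pi * h * (x l + c)) / (Real.pi ^ 2 * (h : ℝ) ^ 2)| ≤
      ‖∑ l ∈ S, ex (h * x l)‖ / (Real.pi ^ 2 * (h : ℝ) ^ 2) := by
    intro h
    rw [← Finset.sum_div, abs_div, abs_of_nonneg (by positivity : (0 : ℝ) ≤ Real.pi ^ 2 * (h : ℝ) ^ 2)]
    apply div_le_div_of_nonneg_right _ (by positivity)
    have e1 : ∑ l ∈ S, Real.cos (2 * Real.pi * h * (x l + c)) =
        (ex (h * c) * ∑ l ∈ S, ex (h * x l)).re := by
      rw [Finset.mul_sum, Complex.re_sum]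
      apply Finset.sum_congr rfl
      intro l _
      rw [← ex_add', ex_re]
      congr 1
      ring
    rw [e1]
    refine (Complex.abs_re_le_norm _).trans ?_
    rw [norm_mul, eq_norm_ex, one_mul]
  rw [← h1.tsum_eq, ← Real.norm_eq_abs]
  have hs3 : Summable (fun h : ℕ => ‖∑ l ∈ S,
      Real.cos (2 * Real.pi * h * (x l + c)) / (Real.pi ^ 2 * (h : ℝ) ^ 2)‖) :=
    Summable.of_nonneg_of_le (fun h => norm_nonneg _) (fun h => by
      rw [Real.norm_eq_abs]; exact h2 h) hs2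
  refine (norm_tsum_le_tsum_norm hs3).trans ?_
  exact hs3.tsum_le_tsum (fun h => by rw [Real.norm_eq_abs]; exact h2 h) hs2

/-- sums of the periodic Bernoulli function over the hyperbola -/
theorem betsum (R1 R2 : ℝ) (hR1 : 0 < R1) (hR : R1 ≤ R2) (q1 q2 a : ℕ) (h1 : 0 < q1) (h2 : 0 < q2)
    (eps : ℝ) (he : 0 < eps) :
    ∃ T0 : ℝ, ∀ t : ℝ, T0 ≤ t → ∀ c : ℝ,
      |∑ l ∈ idx R1 R2 q1 a t, bet (t / (q2 * (a + q1 * l)) + c)| ≤ eps * √t := by
  have hq1 : (0 : ℝ) < q1 := by exact_mod_cast h1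
  set C : ℝ := (R2 - R1) / q1 + 1 with hC
  have hC0 : 0 ≤ C := by
    have : 0 ≤ R2 - R1 := by linarith
    positivity
  have hpi : 1 ≤ Real.pi ^ 2 := by nlinarith [Real.pi_gt_three]
  have hlim : Tendsto (fun t : ℝ => ∑' h : ℕ,
      ‖∑ l ∈ idx R1 R2 q1 a t, ex (h * (t / (q2 * (a + q1 * l))))‖ /
        (Real.pi ^ 2 * (h : ℝ) ^ 2) / √t) atTop (𝓝 (∑' _ : ℕ, (0 : ℝ))) := by
    refine tendsto_tsum_of_dominated_convergence
      (bound := fun h : ℕ => C * (1 / ((h : ℝ) ^ 2))) ?_ ?_ ?_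
    · exact (Real.summable_one_div_nat_pow.2 (by norm_num)).mul_left _
    · intro h
      rcases Nat.eq_zero_or_pos h with rfl | hh
      · simp
      have hh' : (0 : ℝ) < h := by exact_mod_cast hh
      rw [Metric.tendsto_atTop]
      intro e he'
      obtain ⟨T0, hT0⟩ := expsum R1 R2 hR1 hR q1 q2 a h1 h2 h hh (e / 2) (by positivity)
      refine ⟨max T0 1, fun t ht => ?_⟩
      have ht0 : 0 < t := by linarith [(le_max_right T0 1).trans ht]
      have hsq : 0 < √t := Real.sqrt_pos.2 ht0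
      have h3 := hT0 t ((le_max_left _ _).trans ht)
      rw [Real.dist_eq, sub_zero, abs_of_nonneg (by positivity)]
      have h4 : ‖∑ l ∈ idx R1 R2 q1 a t, ex (h * (t / (q2 * (a + q1 * l))))‖ /
          (Real.pi ^ 2 * (h : ℝ) ^ 2) ≤
          ‖∑ l ∈ idx R1 R2 q1 a t, ex (h * (t / (q2 * (a + q1 * l))))‖ := by
        apply div_le_self (norm_nonneg _)
        have : (1 : ℝ) ≤ h := by exact_mod_cast hh
        nlinarith
      have h5 : ‖∑ l ∈ idx R1 R2 q1 a t, ex (h * (t / (q2 * (a + q1 * l))))‖ /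
          (Real.pi ^ 2 * (h : ℝ) ^ 2) / √t ≤ e / 2 := by
        rw [div_le_iff₀ hsq]
        exact h4.trans h3
      linarith
    · filter_upwards [eventually_ge_atTop 1] with t ht h
      have ht0 : 0 < t := by linarith
      have hsq : 0 < √t := Real.sqrt_pos.2 ht0
      have hsq1 : 1 ≤ √t := Real.one_le_sqrt.2 ht
      rw [Real.norm_eq_abs, abs_of_nonneg (by positivity), div_le_iff₀ hsq]
      rcases Nat.eq_zero_or_pos h with rfl | hh
      · simp
      have hh' : (0 : ℝ) < h := by exact_mod_cast hh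
      have h5 : ‖∑ l ∈ idx R1 R2 q1 a t, ex (h * (t / (q2 * (a + q1 * l))))‖ ≤ C * √t := by
        refine (norm_sum_le _ _).trans ?_
        simp only [eq_norm_ex, sum_const, nsmul_eq_mul, mul_one]
        refine (card_idx R1 R2 q1 a h1 hR t).trans ?_
        rw [hC]
        have : (R2 - R1) * √t / q1 = (R2 - R1) / q1 * √t := by ring
        rw [this]
        linarith
      rw [mul_one_div]
      have h6 : C / (h : ℝ) ^ 2 * √t = C * √t / (h : ℝ) ^ 2 := by ring
      rw [h6]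
      apply div_le_div₀ (by positivity) h5 (by positivity)
      nlinarith [sq_nonneg (h : ℝ)]
  rw [tsum_zero, Metric.tendsto_atTop] at hlim
  obtain ⟨T0, hT0⟩ := hlim eps he
  refine ⟨max T0 1, fun t ht c => ?_⟩
  have ht0 : 0 < t := by linarith [(le_max_right T0 1).trans ht]
  have hsq : 0 < √t := Real.sqrt_pos.2 ht0
  have h3 := hT0 t ((le_max_left _ _).trans ht)
  rw [tsum_div_const, Real.dist_eq, sub_zero] at h3
  have h4 := (le_abs_self _).trans h3.le
  rw [div_le_iff₀ hsq] at h4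
  exact (sum_bet_le _ _ c).trans h4

/-- **Equidistribution, upper bound**, for arbitrary finite sets. -/
theorem equi_up (R1 R2 : ℝ) (hR1 : 0 < R1) (hR : R1 ≤ R2) (q1 q2 a m : ℕ) (h1 : 0 < q1)
    (h2 : 0 < q2) (al be : ℝ) (hab : al ≤ be) (eps : ℝ) (he : 0 < eps) :
    ∃ T0 : ℝ, ∀ t : ℝ, T0 ≤ t → ∀ S : Finset ℕ,
      (∀ n ∈ S, R1 * √t < n ∧ (n : ℝ) ≤ R2 * √t ∧ n ≡ a [MOD q1] ∧ ⌊t / n⌋₊ ≡ m [MOD q2] ∧
        al ≤ Int.fract (t / n) ∧ Int.fract (t / n) ≤ be) →
      (S.card : ℝ) ≤ ((R2 - R1) * (be - al) / (q1 * q2) + eps) * √t := by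
  have hq1 : (0 : ℝ) < q1 := by exact_mod_cast h1
  have hq2 : (0 : ℝ) < q2 := by exact_mod_cast h2
  have hR0 : 0 ≤ R2 - R1 := by linarith
  set W : ℝ := (R2 - R1) / q1 with hW
  have hW0 : 0 ≤ W := by positivity
  set a0 : ℕ := a % q1 with ha0
  set m0 : ℕ := m % q2 with hm0
  set p0 : ℝ := (be - al) / (2 * q2) with hp0
  have hp00 : 0 ≤ p0 := by
    have : 0 ≤ be - al := by linarith
    positivity
  set c0 : ℝ := (m0 + (al + be) / 2) / q2 with hc0
  set dl : ℝ := eps / (8 * (W + 1)) with hdl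
  have hdl0 : 0 < dl := by positivity
  have hdlW : dl * W ≤ eps / 8 := by
    rw [hdl, div_mul_eq_mul_div, div_le_iff₀ (by positivity)]
    nlinarith
  obtain ⟨T1, hT1⟩ := betsum R1 R2 hR1 hR q1 q2 a0 h1 h2 (dl * eps / 8) (by positivity)
  refine ⟨max T1 (max 1 (max ((a0 / R1) ^ 2) ((8 / eps) ^ 2))), fun t ht S hS => ?_⟩
  have ht1 : T1 ≤ t := (le_max_left _ _).trans ht
  have ht2 : 1 ≤ t := ((le_max_left _ _).trans (le_max_right _ _)).trans ht
  have ht3 : (a0 / R1) ^ 2 ≤ t :=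
    ((le_max_left _ _).trans ((le_max_right _ _).trans (le_max_right _ _))).trans ht
  have ht4 : (8 / eps) ^ 2 ≤ t :=
    ((le_max_right _ _).trans ((le_max_right _ _).trans (le_max_right _ _))).trans ht
  have ht0 : 0 < t := by linarith
  have hsq : 0 < √t := Real.sqrt_pos.2 ht0
  have haR : (a0 : ℝ) ≤ R1 * √t := by
    have : a0 / R1 ≤ √t := Real.le_sqrt_of_sq_le ht3
    rw [div_le_iff₀ hR1] at this
    linarith
  have h8 : 1 ≤ eps / 8 * √t := by
    have : 8 / eps ≤ √t := Real.le_sqrt_of_sq_le ht4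
    rw [div_le_iff₀ he] at this
    linarith
  have hR1t : 0 < R1 * √t := by positivity
  -- the map to the index set
  have hcard := card_idx R1 R2 q1 a0 h1 hR t
  have hN : ((idx R1 R2 q1 a0 t).card : ℝ) ≤ W * √t + 1 := by
    refine hcard.trans (le_of_eq ?_)
    rw [hW]; ring
  set N : ℝ := ((idx R1 R2 q1 a0 t).card : ℝ) with hNdef
  have hN0 : 0 ≤ N := by positivity
  have hdiv : ∀ n ∈ S, n = a0 + q1 * (n / q1) := by
    intro n hn
    have h3 : n % q1 = a0 := (hS n hn).2.2.1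
    rw [← h3]
    exact (Nat.mod_add_div n q1).symm
  have himg : S.image (fun n => n / q1) ⊆ idx R1 R2 q1 a0 t := by
    intro l hl
    rw [mem_image] at hl
    obtain ⟨n, hn, rfl⟩ := hl
    have e : (n : ℝ) = (a0 : ℝ) + q1 * ((n / q1 : ℕ) : ℝ) := by exact_mod_cast hdiv n hn
    obtain ⟨g1, g2, -⟩ := hS n hn
    exact mem_idx_of h1 hR1t.le (Nat.mod_lt _ h1) (by rw [← e]; exact g1) haR
      (by rw [← e]; exact g2)
  have hinj : Set.InjOn (fun n => n / q1) (S : Set ℕ) := by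
    intro n hn n' hn' hnn
    have e1 := hdiv n hn
    have e2 := hdiv n' hn'
    simp only at hnn
    rw [e1, e2, hnn]
  have hcS : S.card = (S.image (fun n => n / q1)).card := (card_image_of_injOn hinj).symm
  have htgt : ((R2 - R1) * (be - al) / (q1 * q2) + eps) * √t =
      W * √t * (2 * p0) + eps * √t := by
    rw [hW, hp0]
    field_simp
  rw [htgt, hcS]
  rcases le_or_gt (p0 + dl) (1 / 2) with hcase | hcase
  · -- the trapezoid
    have hone : ∀ l ∈ S.image (fun n => n / q1),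
        trap p0 (p0 + dl) (t / (q2 * (a0 + q1 * l)) - c0) = 1 := by
      intro l hl
      rw [mem_image] at hl
      obtain ⟨n, hn, rfl⟩ := hl
      have e : (n : ℝ) = (a0 : ℝ) + q1 * ((n / q1 : ℕ) : ℝ) := by exact_mod_cast hdiv n hn
      obtain ⟨g1, g2, g3, g4, g5, g6⟩ := hS n hn
      have hn0 : (0 : ℝ) < n := by linarith
      rw [← e]
      set M : ℕ := ⌊t / n⌋₊ with hM
      have hk : M = m0 + q2 * (M / q2) := by
        have h3 : M % q2 = m0 := g4
        rw [← h3]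
        exact (Nat.mod_add_div M q2).symm
      have hk' : (M : ℝ) = m0 + q2 * ((M / q2 : ℕ) : ℝ) := by exact_mod_cast hk
      have hfr : t / n = M + Int.fract (t / n) := by
        have h5 : (0 : ℝ) ≤ t / n := by positivity
        have h6 : ((⌊t / n⌋₊ : ℕ) : ℝ) = ((⌊t / (n : ℝ)⌋ : ℤ) : ℝ) :=
          natCast_floor_eq_intCast_floor h5
        rw [hM, h6]
        exact (Int.floor_add_fract _).symm
      apply trap_eq_one p0 (p0 + dl) _ hp00 (by linarith) hcase ((M / q2 : ℕ) : ℤ)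
      have e5 : t / (q2 * (n : ℝ)) = (t / n) / q2 := by field_simp
      have e6 : t / (q2 * (n : ℝ)) - c0 - (((M / q2 : ℕ) : ℤ) : ℝ) =
          (Int.fract (t / n) - (al + be) / 2) / q2 := by
        rw [e5, hfr, Int.cast_natCast]
        have : Int.fract ((M : ℝ) + Int.fract (t / n)) = Int.fract (t / n) := by
          rw [Int.fract_natCast_add, Int.fract_fract]
        rw [this, hk', hc0]
        field_simp
        ring
      rw [e6, abs_div, abs_of_pos hq2, hp0, ← div_div]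
      apply div_le_div_of_nonneg_right _ hq2.le
      rw [abs_le]
      constructor <;> linarith
    have hsum1 : ((S.image (fun n => n / q1)).card : ℝ) ≤
        ∑ l ∈ idx R1 R2 q1 a0 t, trap p0 (p0 + dl) (t / (q2 * (a0 + q1 * l)) - c0) := by
      calc ((S.image (fun n => n / q1)).card : ℝ)
          = ∑ l ∈ S.image (fun n => n / q1),
              trap p0 (p0 + dl) (t / (q2 * (a0 + q1 * l)) - c0) := by
            rw [sum_congr rfl hone]
            simp
        _ ≤ _ := sum_le_sum_of_subset_of_nonneg himg fun l _ _ =>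
            trap_nonneg _ _ _ hp00 (by linarith) hcase
    refine hsum1.trans ?_
    have hb := hT1 t ht1
    have b1 := hb (-c0 + p0)
    have b2 := hb (-c0 - p0)
    have b3 := hb (-c0 + (p0 + dl))
    have b4 := hb (-c0 - (p0 + dl))
    have hexp : ∑ l ∈ idx R1 R2 q1 a0 t, trap p0 (p0 + dl) (t / (q2 * (a0 + q1 * l)) - c0) =
        N * (2 * p0 + dl) +
        (∑ l ∈ idx R1 R2 q1 a0 t, bet (t / (q2 * (a0 + q1 * l)) + (-c0 + p0)) +
          ∑ l ∈ idx R1 R2 q1 a0 t, bet (t / (q2 * (a0 + q1 * l)) + (-c0 - p0)) -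
          ∑ l ∈ idx R1 R2 q1 a0 t, bet (t / (q2 * (a0 + q1 * l)) + (-c0 + (p0 + dl))) -
          ∑ l ∈ idx R1 R2 q1 a0 t, bet (t / (q2 * (a0 + q1 * l)) + (-c0 - (p0 + dl)))) /
          (2 * dl) := by
      rw [← sum_add_distrib, ← sum_sub_distrib, ← sum_sub_distrib, sum_div, hNdef,
        ← nsmul_eq_mul, ← sum_const, ← sum_add_distrib]
      apply sum_congr rfl
      intro l _
      unfold trap
      have e1 : p0 + dl - p0 = dl := by ring
      rw [e1]
      have e2 : ∀ u v : ℝ, u - c0 + v = u + (-c0 + v) := fun u v => by ring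
      have e3 : ∀ u v : ℝ, u - c0 - v = u + (-c0 - v) := fun u v => by ring
      rw [e2, e3, e2, e3]
      ring
    rw [hexp]
    have hbd : (∑ l ∈ idx R1 R2 q1 a0 t, bet (t / (q2 * (a0 + q1 * l)) + (-c0 + p0)) +
          ∑ l ∈ idx R1 R2 q1 a0 t, bet (t / (q2 * (a0 + q1 * l)) + (-c0 - p0)) -
          ∑ l ∈ idx R1 R2 q1 a0 t, bet (t / (q2 * (a0 + q1 * l)) + (-c0 + (p0 + dl))) -
          ∑ l ∈ idx R1 R2 q1 a0 t, bet (t / (q2 * (a0 + q1 * l)) + (-c0 - (p0 + dl)))) /
          (2 * dl) ≤ eps / 4 * √t := by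
      rw [div_le_iff₀ (by positivity)]
      have c1 := (abs_le.1 b1).2
      have c2 := (abs_le.1 b2).2
      have c3 := (abs_le.1 b3).1
      have c4 := (abs_le.1 b4).1
      have e : eps / 4 * √t * (2 * dl) = 4 * (dl * eps / 8 * √t) := by ring
      rw [e]
      linarith
    have e5 : N * (2 * p0 + dl) ≤ (W * √t + 1) * (2 * p0 + dl) := by gcongr
    have e6 : (W * √t + 1) * (2 * p0 + dl) = W * √t * (2 * p0) + (dl * W) * √t + (2 * p0 + dl) := by
      ring
    have e7 : (dl * W) * √t ≤ eps / 8 * √t := by gcongr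
    have e8 : 2 * p0 + dl ≤ 1 := by linarith
    have e9 : 0 ≤ eps * √t := by positivity
    linarith
  · -- the trivial bound
    have g1 : ((S.image (fun n => n / q1)).card : ℝ) ≤ N := by
      rw [hNdef]
      exact_mod_cast card_le_card himg
    have g2 : W * √t ≤ W * √t * (2 * p0) + 2 * (dl * W) * √t := by
      have : W * √t * 1 ≤ W * √t * (2 * p0 + 2 * dl) := by
        apply mul_le_mul_of_nonneg_left _ (by positivity)
        linarith
      linarith
    have e7 : (dl * W) * √t ≤ eps / 8 * √t := by gcongr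
    have e9 : 0 ≤ eps * √t := by positivity
    linarith

/-- **EQ** in the form used by the link module. -/
theorem equidist (R : ℝ) (hR : 0 < R) (q1 q2 a m : ℕ) (h1 : 0 < q1) (h2 : 0 < q2)
    (al be : ℝ) (hab : al ≤ be) (eps : ℝ) (he : 0 < eps) :
    ∃ T0 : ℝ, ∀ t : ℝ, T0 ≤ t → ∀ S : Finset ℕ,
      (∀ n ∈ S, R * √t < n ∧ (n : ℝ) ≤ 1.01 * R * √t ∧ n ≡ a [MOD q1] ∧
        ⌊t / n⌋₊ ≡ m [MOD q2] ∧ al ≤ Int.fract (t / n) ∧ Int.fract (t / n) ≤ be) →
      (S.card : ℝ) ≤ (0.01 * R * (be - al) / (q1 * q2) + eps) * √t := by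
  obtain ⟨T0, hT0⟩ := equi_up R (1.01 * R) hR (by linarith) q1 q2 a m h1 h2 al be hab eps he
  refine ⟨T0, fun t ht S hS => ?_⟩
  have := hT0 t ht S hS
  have e : 1.01 * R - R = 0.01 * R := by ring
  rwa [e] at this

end Pool.Agent.MREq
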